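import Mathlib

set_option autoImplicit false

/-! # The cross Hoffman bound from a Fourier certificate (abstract form) -/

namespace Pool.Agent.Helper16.EX

open Finset

set_option linter.unusedSectionVars false

variable {E : Type*} [Fintype E] [DecidableEq E]

/-- The Walsh character of `R` at `A`. -/
noncomputable def chr (R A : E → Bool) : ℝ := ∏ e, if (R e && A e) then (-1 : ℝ) else 1

lemma chr_comm (R A : E → Bool) : chr R A = chr A R := by
  unfold chr
  exact Finset.prod_congr rfl (fun e _ => by rw [Bool.and_comm])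

lemma chr_xor (R A B : E → Bool) : chr R (fun e => xor (A e) (B e)) = chr R A * chr R B := by
  unfold chr
  rw [← Finset.prod_mul_distrib]
  refine Finset.prod_congr rfl (fun e _ => ?_)
  beta_reduce
  generalize R e = r
  generalize A e = a
  generalize B e = b
  cases r <;> cases a <;> cases b <;> simp

lemma chr_zero (A : E → Bool) : chr (fun _ => false) A = 1 := by
  simp [chr]

lemma chr_sq (R A : E → Bool) : chr R A * chr R A = 1 := by
  rw [← chr_xor]
  have : (fun e => xor (A e) (A e)) = (fun _ : E => false) := by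
    funext e; simp
  rw [this, chr_comm, chr_zero]

/-- the flip of a coordinate -/
def flip (e : E) (R : E → Bool) : E → Bool := Function.update R e (!(R e))

lemma flip_flip (e : E) (R : E → Bool) : flip e (flip e R) = R := by
  funext x
  by_cases h : x = e
  · subst h; simp [flip]
  · simp [flip, Function.update_of_ne h]

lemma flip_ne (e : E) (R : E → Bool) : flip e R ≠ R := by
  intro h
  have := congrFun h e
  simp [flip] at this

lemma chr_flip (e : E) (R A : E → Bool) (h : A e = true) : chr (flip e R) A = - chr R A := by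
  unfold chr
  rw [← Finset.mul_prod_erase univ _ (mem_univ e), ← Finset.mul_prod_erase univ
    (fun x => if (R x && A x) then (-1 : ℝ) else 1) (mem_univ e)]
  have h1 : ∏ x ∈ univ.erase e, (if (flip e R x && A x) then (-1 : ℝ) else 1)
      = ∏ x ∈ univ.erase e, (if (R x && A x) then (-1 : ℝ) else 1) := by
    refine Finset.prod_congr rfl (fun x hx => ?_)
    have : x ≠ e := (Finset.mem_erase.1 hx).1
    simp [flip, Function.update_of_ne this]
  rw [h1]
  have h2 : flip e R e = !(R e) := by simp [flip]
  rw [h2, h]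
  cases R e <;> simp

/-- orthogonality: sums of `g R * chr R D` vanish if `g` ignores a coordinate where `D` is set -/
lemma sum_flip_zero (g : (E → Bool) → ℝ) (D : E → Bool) (e : E) (hD : D e = true)
    (hg : ∀ R, g (flip e R) = g R) : ∑ R : E → Bool, g R * chr R D = 0 := by
  have h1 : ∑ R : E → Bool, g R * chr R D = ∑ R : E → Bool, g (flip e R) * chr (flip e R) D := by
    refine (Function.Bijective.sum_comp (e := flip e) ?_ (fun R => g R * chr R D)).symm
    exact (Function.Involutive.bijective (fun R => flip_flip e R))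
  have h2 : ∑ R : E → Bool, g (flip e R) * chr (flip e R) D
      = - ∑ R : E → Bool, g R * chr R D := by
    rw [← Finset.sum_neg_distrib]
    refine Finset.sum_congr rfl (fun R _ => ?_)
    rw [hg, chr_flip e R D hD]; ring
  linarith

lemma sum_chr (D : E → Bool) : ∑ R : E → Bool, chr R D = if D = (fun _ => false) then (2 : ℝ) ^ Fintype.card E else 0 := by
  split_ifs with h
  · subst h
    have : ∀ R : E → Bool, chr R (fun _ => false) = 1 := fun R => by rw [chr_comm, chr_zero]
    simp [this]
  · have : ∃ e, D e = true := by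
      by_contra hne
      apply h
      funext e
      have := not_exists.1 hne e
      simpa using this
    obtain ⟨e, he⟩ := this
    have := sum_flip_zero (fun _ => (1 : ℝ)) D e he (fun _ => rfl)
    simpa using this

/-- unnormalised Fourier coefficient -/
noncomputable def hat (F : Finset (E → Bool)) (R : E → Bool) : ℝ := ∑ A ∈ F, chr R A

lemma hat_zero (F : Finset (E → Bool)) : hat F (fun _ => false) = F.card := by
  simp [hat, chr_zero]

lemma parseval (F : Finset (E → Bool)) :
    ∑ R : E → Bool, hat F R ^ 2 = (2 : ℝ) ^ Fintype.card E * F.card := by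
  have h1 : ∀ R : E → Bool, hat F R ^ 2 = ∑ A ∈ F, ∑ B ∈ F, chr R (fun e => xor (A e) (B e)) := by
    intro R
    rw [sq, hat, Finset.sum_mul_sum]
    refine Finset.sum_congr rfl (fun A _ => Finset.sum_congr rfl (fun B _ => ?_))
    rw [chr_xor]
  simp_rw [h1]
  rw [Finset.sum_comm]
  have h2 : ∀ A ∈ F, ∑ R : E → Bool, ∑ B ∈ F, chr R (fun e => xor (A e) (B e))
      = (2 : ℝ) ^ Fintype.card E := by
    intro A hA
    rw [Finset.sum_comm]
    simp_rw [sum_chr]
    rw [Finset.sum_eq_single A]
    · rw [if_pos]; funext e; simp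
    · intro B _ hB
      rw [if_neg]
      intro h
      apply hB
      funext e
      have := congrFun h e
      revert this
      beta_reduce
      generalize A e = a
      generalize B e = b
      cases a <;> cases b <;> simp
    · intro h; exact absurd hA h
  rw [Finset.sum_congr rfl h2, Finset.sum_const, nsmul_eq_mul, mul_comm]

/-- the linear relation for one cut -/
lemma relation (N : E → Bool) (φ : (E → Bool) → ℝ) (F G : Finset (E → Bool))
    (hFG : ∀ A ∈ F, ∀ B ∈ G, ∃ e, N e = false ∧ A e ≠ B e) :
    ∑ R : E → Bool, φ (fun e => R e && N e) * (hat F R * hat G R) = 0 := by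
  have h1 : ∀ R : E → Bool, φ (fun e => R e && N e) * (hat F R * hat G R)
      = ∑ A ∈ F, ∑ B ∈ G, φ (fun e => R e && N e) * chr R (fun e => xor (A e) (B e)) := by
    intro R
    rw [hat, hat, Finset.sum_mul_sum, Finset.mul_sum]
    refine Finset.sum_congr rfl (fun A _ => ?_)
    rw [Finset.mul_sum]
    refine Finset.sum_congr rfl (fun B _ => ?_)
    rw [chr_xor]
  simp_rw [h1]
  rw [Finset.sum_comm]
  refine Finset.sum_eq_zero (fun A hA => ?_)
  rw [Finset.sum_comm]
  refine Finset.sum_eq_zero (fun B hB => ?_)
  obtain ⟨e, hN, hne⟩ := hFG A hA B hB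
  refine sum_flip_zero (fun R => φ (fun e => R e && N e)) _ e ?_ ?_
  · revert hne
    beta_reduce
    generalize A e = a
    generalize B e = b
    cases a <;> cases b <;> simp
  · intro R
    congr 1
    funext x
    by_cases hx : x = e
    · subst hx; simp [hN]
    · simp [flip, Function.update_of_ne hx]

/-- **Cross Hoffman bound.**  If the averaged certificate is at most `1` in absolute value off the
empty set and equals `7` at the empty set, every cross pair has product of densities at most `1/64`. -/
theorem hoffman {S : Type*} [Fintype S] [Nonempty S] (N : S → E → Bool) (φ : (E → Bool) → ℝ)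
    (h0 : φ (fun _ => false) = 7)
    (h1 : ∀ R : E → Bool, R ≠ (fun _ => false) →
      |∑ s, φ (fun e => R e && N s e)| ≤ Fintype.card S)
    (F G : Finset (E → Bool))
    (hFG : ∀ A ∈ F, ∀ B ∈ G, ∀ s, ∃ e, N s e = false ∧ A e ≠ B e) :
    64 * ((F.card : ℝ) * G.card) ≤ ((2 : ℝ) ^ Fintype.card E) ^ 2 := by
  classical
  set M : ℝ := (2 : ℝ) ^ Fintype.card E with hM
  have hMpos : 0 < M := by positivity
  set c : ℝ := (Fintype.card S : ℝ) with hc
  have hcpos : 0 < c := by
    rw [hc]; exact_mod_cast Fintype.card_pos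
  have hrel : ∑ R : E → Bool, (∑ s, φ (fun e => R e && N s e)) * (hat F R * hat G R) = 0 := by
    simp_rw [Finset.sum_mul]
    rw [Finset.sum_comm]
    exact Finset.sum_eq_zero (fun s _ => relation (N s) φ F G (fun A hA B hB => hFG A hA B hB s))
  set z : E → Bool := fun _ => false with hz
  have hsplit := Finset.add_sum_erase univ
    (fun R : E → Bool => (∑ s, φ (fun e => R e && N s e)) * (hat F R * hat G R)) (mem_univ z)
  rw [hrel] at hsplit
  have hz0 : (∑ s, φ (fun e => z e && N s e)) = 7 * c := by
    have : ∀ s, φ (fun e => z e && N s e) = 7 := by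
      intro s; rw [← h0]; congr 1
    simp [this, hc, mul_comm]
  simp only [hz0] at hsplit
  rw [hz, hat_zero, hat_zero, ← hz] at hsplit
  set a : ℝ := (F.card : ℝ) with ha
  set b : ℝ := (G.card : ℝ) with hb
  have ha0 : 0 ≤ a := by positivity
  have hb0 : 0 ≤ b := by positivity
  -- the remaining sum
  have hbound : 7 * c * (a * b) ≤ c * ∑ R ∈ univ.erase z, |hat F R| * |hat G R| := by
    have h2 : 7 * c * (a * b) = - ∑ R ∈ univ.erase z,
        (∑ s, φ (fun e => R e && N s e)) * (hat F R * hat G R) := by linarith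
    rw [h2, ← Finset.sum_neg_distrib, Finset.mul_sum]
    refine Finset.sum_le_sum (fun R hR => ?_)
    have h3 := h1 R (Finset.mem_erase.1 hR).1
    calc -((∑ s, φ (fun e => R e && N s e)) * (hat F R * hat G R))
        ≤ |(∑ s, φ (fun e => R e && N s e)) * (hat F R * hat G R)| := neg_le_abs _
      _ = |∑ s, φ (fun e => R e && N s e)| * (|hat F R| * |hat G R|) := by
          rw [abs_mul, abs_mul]
      _ ≤ c * (|hat F R| * |hat G R|) := by
          apply mul_le_mul_of_nonneg_right h3; positivity
  have hbound2 : 7 * (a * b) ≤ ∑ R ∈ univ.erase z, |hat F R| * |hat G R| := by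
    have : c * (7 * (a * b)) ≤ c * ∑ R ∈ univ.erase z, |hat F R| * |hat G R| := by
      linarith
    exact le_of_mul_le_mul_left this hcpos
  have hpa : ∑ R ∈ univ.erase z, |hat F R| ^ 2 = M * a - a ^ 2 := by
    have h4 := Finset.add_sum_erase univ (fun R : E → Bool => hat F R ^ 2) (mem_univ z)
    rw [parseval] at h4
    beta_reduce at h4
    rw [hz, hat_zero, ← hz] at h4
    simp_rw [sq_abs]
    linarith
  have hpb : ∑ R ∈ univ.erase z, |hat G R| ^ 2 = M * b - b ^ 2 := by
    have h4 := Finset.add_sum_erase univ (fun R : E → Bool => hat G R ^ 2) (mem_univ z)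
    rw [parseval] at h4
    beta_reduce at h4
    rw [hz, hat_zero, ← hz] at h4
    simp_rw [sq_abs]
    linarith
  have hcs := Finset.sum_mul_sq_le_sq_mul_sq (univ.erase z) (fun R : E → Bool => |hat F R|)
    (fun R : E → Bool => |hat G R|)
  rw [hpa, hpb] at hcs
  have hsq : (7 * (a * b)) ^ 2 ≤ (M * a - a ^ 2) * (M * b - b ^ 2) :=
    le_trans (pow_le_pow_left₀ (by positivity) hbound2 2) hcs
  -- 49 ab ≤ (M-a)(M-b)
  by_cases hab : a * b = 0
  · rw [hab]; simp; positivity
  have habpos : 0 < a * b := lt_of_le_of_ne (mul_nonneg ha0 hb0) (Ne.symm hab)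
  have h5 : 49 * (a * b) ≤ (M - a) * (M - b) := by
    have : (a * b) * (49 * (a * b)) ≤ (a * b) * ((M - a) * (M - b)) := by nlinarith
    exact le_of_mul_le_mul_left this habpos
  -- AM-GM: (M-a)(M-b) ≤ (M-√(ab))²
  set q : ℝ := Real.sqrt (a * b) with hq
  have hq0 : 0 ≤ q := Real.sqrt_nonneg _
  have hq2 : q ^ 2 = a * b := Real.sq_sqrt habpos.le
  have haM : a ≤ M := by
    have : (F.card : ℝ) ≤ (Fintype.card (E → Bool) : ℝ) := by
      exact_mod_cast Finset.card_le_univ F
    simpa [hM] using this
  have hbM : b ≤ M := by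
    have : (G.card : ℝ) ≤ (Fintype.card (E → Bool) : ℝ) := by
      exact_mod_cast Finset.card_le_univ G
    simpa [hM] using this
  have hqM : q ≤ M := by
    rw [hq]
    calc Real.sqrt (a * b) ≤ Real.sqrt (M * M) := Real.sqrt_le_sqrt (mul_le_mul haM hbM hb0 hMpos.le)
      _ = M := Real.sqrt_mul_self hMpos.le
  have hamgm : 2 * q ≤ a + b := by
    have : (2 * q) ^ 2 ≤ (a + b) ^ 2 := by nlinarith [sq_nonneg (a - b)]
    exact le_of_sq_le_sq this (by positivity) 
  have h6 : (7 * q) ^ 2 ≤ (M - q) ^ 2 := by nlinarith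
  have h7 : 7 * q ≤ M - q := le_of_sq_le_sq h6 (by linarith)
  have h8 : 8 * q ≤ M := by linarith
  have h9 : (8 * q) ^ 2 ≤ M ^ 2 := pow_le_pow_left₀ (by positivity) h8 2
  nlinarith

end Pool.Agent.Helper16.EX
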