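import Mathlib
import Pool.Agent.Helper16.EX.Fou
import Pool.Agent.Helper64.CX.Peel

set_option autoImplicit false

/-! # From a Fourier certificate to the exact cross bound for `t = 3` -/

namespace Pool.Agent.Helper16.EX

open Finset Pool.Agent.Helper64.CX

/-- the edges of the complete graph on `Fin n` -/
abbrev Edg (n : ℕ) : Type := {p : Fin n × Fin n // p.1 < p.2}

lemma card_edg (n : ℕ) : Fintype.card (Edg n) = n.choose 2 := by
  classical
  have h : Fintype.card (Edg n) = (univ.filter (fun p : Fin n × Fin n => p.1 < p.2)).card := by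
    rw [Fintype.card_subtype]
  have h2 : (univ.filter (fun p : Fin n × Fin n => p.1 < p.2)).card
      = ∑ j : Fin n, (univ.filter (fun i : Fin n => i < j)).card := by
    rw [Finset.card_filter, ← Finset.univ_product_univ, Finset.sum_product_right]
    refine Finset.sum_congr rfl (fun j _ => ?_)
    rw [Finset.card_filter]
  have h3 : ∀ j : Fin n, (univ.filter (fun i : Fin n => i < j)).card = (j : ℕ) := by
    intro j
    have : (univ.filter (fun i : Fin n => i < j)) = Finset.Iio j := by
      ext i; simp
    rw [this, Fin.card_Iio]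
  rw [h, h2, Finset.sum_congr rfl (fun j _ => h3 j), Fin.sum_univ_eq_sum_range (fun i => i) n,
    Finset.sum_range_id, Nat.choose_two_right]

/-- adjacency function of an edge function -/
def adj {n : ℕ} (a : Edg n → Bool) : Fin n → Fin n → Bool :=
  fun i j => if h : i < j then a ⟨(i, j), h⟩ else false

/-- the configuration of an edge function -/
def cfg {n : ℕ} (a : Edg n → Bool) : Cfg n := enc n (adj a)

lemma cfg_inj {n : ℕ} : Function.Injective (cfg (n := n)) := by
  intro a b h
  have h1 := enc_eq n (adj a) (adj b) h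
  funext e
  obtain ⟨⟨i, j⟩, hij⟩ := e
  have := h1 i j hij
  simpa [adj, hij] using this

lemma cfg_bij {n : ℕ} : Function.Bijective (cfg (n := n)) := by
  classical
  rw [Fintype.bijective_iff_injective_and_card]
  refine ⟨cfg_inj, ?_⟩
  rw [card_cfg, Fintype.card_fun, Fintype.card_bool, card_edg]

/-- the cut of a bipartition -/
def cutB {n : ℕ} (s : Fin n → Bool) (e : Edg n) : Bool := xor (s e.1.1) (s e.1.2)

/-- **Exact cross bound for `t = 3` from a certificate on `n` vertices.** -/
theorem bound_of_cert (n : ℕ) (φ : (Edg n → Bool) → ℝ) (h0 : φ (fun _ => false) = 7)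
    (h1 : ∀ R : Edg n → Bool, R ≠ (fun _ => false) →
      |∑ s : Fin n → Bool, φ (fun e => R e && cutB s e)| ≤ 2 ^ n) :
    Bound 2 n (1 / 64) := by
  classical
  intro F G hFG
  set F' : Finset (Edg n → Bool) := univ.filter (fun a => cfg a ∈ F) with hF'
  set G' : Finset (Edg n → Bool) := univ.filter (fun a => cfg a ∈ G) with hG'
  have hcard : ∀ H : Finset (Cfg n), (univ.filter (fun a : Edg n → Bool => cfg a ∈ H)).card = H.card := by
    intro H
    refine Finset.card_bij (fun a _ => cfg a) ?_ ?_ ?_
    · intro a ha; exact (Finset.mem_filter.1 ha).2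
    · intro a _ b _ h; exact cfg_inj h
    · intro B hB
      obtain ⟨a, ha⟩ := cfg_bij.2 B
      exact ⟨a, by simp [ha, hB], ha⟩
  have hcr : ∀ A ∈ F', ∀ B ∈ G', ∀ s : Fin n → Bool, ∃ e, cutB s e = false ∧ A e ≠ B e := by
    intro A hA B hB s
    by_contra hne
    push Not at hne
    refine hFG (cfg A) (Finset.mem_filter.1 hA).2 (cfg B) (Finset.mem_filter.1 hB).2 ?_
    refine ⟨fun i => if s i then 1 else 0, ?_⟩
    rw [cfg, cfg, Pr_enc]
    intro i j hij hab hc
    have h2 : A ⟨(i, j), hij⟩ ≠ B ⟨(i, j), hij⟩ := by
      simpa [adj, hij] using hab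
    apply h2
    apply hne
    unfold cutB
    revert hc
    simp only []
    cases hsi : s i <;> cases hsj : s j <;> simp
  have h := hoffman (E := Edg n) (S := Fin n → Bool) (fun s e => cutB s e) φ h0 (by
    intro R hR
    have := h1 R hR
    simpa using this) F' G' hcr
  rw [hF', hG', hcard F, hcard G, card_edg] at h
  linarith

end Pool.Agent.Helper16.EX
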